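import Mathlib

/-!
A family of idempotents in a compact right topological semigroup with an automorphism.

Let `M` be a compact Hausdorff semigroup in which all maps `x ↦ x * r` are continuous and let `δ`
be an automorphism of `M`. Then there are idempotents `f t` (`t : ℤ`) in one right ideal such that
`f t` and `δ (f (t - 1))` lie in one minimal left ideal. In formulas:
`f s * f t = f t`, `f t * δ (f (t - 1)) = f t`, `δ (f (t - 1)) * f t = δ (f (t - 1))`.
-/

set_option autoImplicit false

namespace Pool.Agent.Q240.HLS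

/-- A minimal closed left ideal `L`: every `x ∈ L` generates it. -/
theorem exists_min_left {M : Type*} [Semigroup M] [TopologicalSpace M] [CompactSpace M]
    [T2Space M] [Nonempty M] (hc : ∀ r : M, Continuous (· * r)) :
    ∃ L : Set M, L.Nonempty ∧ IsCompact L ∧ (∀ x ∈ L, Set.range (fun m => m * x) = L) := by
  let S : Set (Set M) := { N | IsClosed N ∧ N.Nonempty ∧ ∀ (m : M) (n) (_ : n ∈ N), m * n ∈ N }
  obtain ⟨L, hL⟩ : ∃ N', Minimal (· ∈ S) N' := by
    refine zorn_superset _ fun c hcs hc' => ?_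
    refine
      ⟨⋂₀ c, ⟨isClosed_sInter fun t ht => (hcs ht).1, ?_, fun m n hn => ?_⟩, fun s hs =>
        Set.sInter_subset_of_mem hs⟩
    · obtain rfl | hcnemp := c.eq_empty_or_nonempty
      · rw [Set.sInter_empty]
        exact Set.univ_nonempty
      convert!
        @IsCompact.nonempty_iInter_of_directed_nonempty_isCompact_isClosed _ _ _ hcnemp.coe_sort
          ((↑) : c → Set M) ?_ ?_ ?_ ?_
      · exact Set.sInter_eq_iInter
      · refine DirectedOn.directed_val (IsChain.directedOn hc'.symm)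
      exacts [fun i => (hcs i.prop).2.1, fun i => (hcs i.prop).1.isCompact,
        fun i => (hcs i.prop).1]
    · rw [Set.mem_sInter]
      exact fun t ht => (hcs ht).2.2 m n (Set.mem_sInter.mp hn t ht)
  refine ⟨L, hL.prop.2.1, hL.prop.1.isCompact, fun x hx => ?_⟩
  apply hL.eq_of_subset
  · refine ⟨(isCompact_range (hc x)).isClosed, ⟨x * x, ⟨x, rfl⟩⟩, ?_⟩
    rintro m _ ⟨n, rfl⟩
    exact ⟨m * n, mul_assoc _ _ _⟩
  · rintro _ ⟨m, rfl⟩
    exact hL.prop.2.2 m x hx

/-- The family of idempotents. -/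
theorem exists_band {M : Type*} [Semigroup M] [TopologicalSpace M] [CompactSpace M]
    [T2Space M] [Nonempty M] (hc : ∀ r : M, Continuous (· * r)) (δ : MulAut M) :
    ∃ f : ℤ → M, (∀ s t, f s * f t = f t) ∧ (∀ t, f t * δ (f (t - 1)) = f t) ∧
      (∀ t, δ (f (t - 1)) * f t = δ (f (t - 1))) := by
  obtain ⟨L, hne, hcomp, hL⟩ := exists_min_left hc
  have hleft : ∀ (m : M) (x : M), x ∈ L → m * x ∈ L := fun m x hx => by
    rw [← hL x hx]; exact ⟨m, rfl⟩
  obtain ⟨e, heL, he⟩ := exists_idempotent_in_compact_subsemigroup hc L hne hcomp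
    (fun x _ y hy => hleft x y hy)
  -- right identities on `L`
  have hrid : ∀ x ∈ L, ∀ u ∈ L, u * u = u → x * u = x := by
    intro x hx u hu huu
    rw [← hL u hu] at hx
    obtain ⟨m, rfl⟩ := hx
    simp only
    rw [mul_assoc, huu]
  -- choice of the elements `v t`
  have hv : ∀ t : ℤ, ∃ v : M, v * ((δ ^ t) e * e) = e := by
    intro t
    have h := hL ((δ ^ t) e * e) (hleft _ _ heL)
    have : e ∈ Set.range (fun m => m * ((δ ^ t) e * e)) := by rw [h]; exact heL
    exact this
  choose v hv using hv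
  let f : ℤ → M := fun t => e * v t * (δ ^ t) e
  have hfe : ∀ t, f t * e = e := by
    intro t
    show e * v t * (δ ^ t) e * e = e
    rw [mul_assoc, mul_assoc, hv, he]
  have hef : ∀ t, e * f t = f t := by
    intro t
    show e * (e * v t * (δ ^ t) e) = e * v t * (δ ^ t) e
    rw [← mul_assoc, ← mul_assoc, he]
  have hff : ∀ s t, f s * f t = f t := by
    intro s t
    rw [← hef t, ← mul_assoc, hfe]
  -- the pulled back elements lie in `L`
  have hpull : ∀ t, (δ ^ (-t)) (f t) ∈ L := by
    intro t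
    show (δ ^ (-t)) (e * v t * (δ ^ t) e) ∈ L
    rw [map_mul]
    have : (δ ^ (-t)) ((δ ^ t) e) = e := by
      rw [← MulAut.mul_apply, ← zpow_add]; simp
    rw [this]
    exact hleft _ _ heL
  have hpull2 : ∀ t, (δ ^ (-t)) (δ (f (t - 1))) ∈ L := by
    intro t
    have h1 : (δ ^ (-t)) (δ (f (t - 1))) = (δ ^ (-(t - 1))) (f (t - 1)) := by
      rw [← MulAut.mul_apply]
      congr 1
      rw [show -(t - 1) = -t + 1 by ring, zpow_add, zpow_one]
    rw [h1]
    exact hpull (t - 1)
  have hinj : ∀ (t : ℤ) (a b : M), (δ ^ (-t)) a = (δ ^ (-t)) b → a = b :=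
    fun t a b h => (δ ^ (-t)).injective h
  refine ⟨f, hff, fun t => ?_, fun t => ?_⟩
  · apply hinj t
    rw [map_mul]
    apply hrid _ (hpull t) _ (hpull2 t)
    rw [← map_mul, ← map_mul, hff]
  · apply hinj t
    rw [map_mul]
    apply hrid _ (hpull2 t) _ (hpull t)
    rw [← map_mul, hff]

end Pool.Agent.Q240.HLS
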