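import Mathlib
import Pool.Agent.Q240.HLS.Band

/-!
The semigroup of ultrafilters on `ℕ` which contain `{n | 0 < n ∧ 2 ^ k ∣ n}` for all `k`.
Doubling is an automorphism of it; the family of idempotents of `Band` gives ultrafilters
`F t` on `ℕ`.
-/

set_option autoImplicit false

namespace Pool.Agent.Q240.HLS

open Filter

attribute [local instance] Ultrafilter.mul Ultrafilter.add
attribute [local instance] Ultrafilter.semigroup Ultrafilter.addSemigroup

/-- The sets of positive multiples of `2 ^ k`. -/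
def mult (k : ℕ) : Set ℕ := {n | 0 < n ∧ 2 ^ k ∣ n}

/-- Ultrafilters containing all the sets `mult k`. -/
def HH : Type := {p : Ultrafilter ℕ // ∀ k : ℕ, mult k ∈ p}

theorem add_mem (p q : Ultrafilter ℕ) (s : Set ℕ) :
    s ∈ p + q ↔ {x | {y | x + y ∈ s} ∈ q} ∈ p := Iff.rfl

theorem map_mem (p : Ultrafilter ℕ) (g : ℕ → ℕ) (s : Set ℕ) :
    s ∈ p.map g ↔ {x | g x ∈ s} ∈ p := Iff.rfl

theorem uext (p q : Ultrafilter ℕ) (h : ∀ s : Set ℕ, s ∈ p ↔ s ∈ q) : p = q :=
  Ultrafilter.coe_injective (Filter.ext h)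

instance : Mul HH where
  mul p q := ⟨p.1 + q.1, fun k => by
    rw [add_mem]
    filter_upwards [p.2 k] with x hx
    show {y | x + y ∈ mult k} ∈ q.1
    filter_upwards [q.2 k] with y hy
    exact ⟨by have := hx.1; omega, Nat.dvd_add hx.2 hy.2⟩⟩

theorem mul_val (p q : HH) : (p * q).1 = p.1 + q.1 := rfl

instance : Semigroup HH where
  mul_assoc p q r := Subtype.ext (add_assoc p.1 q.1 r.1)

instance : TopologicalSpace HH := instTopologicalSpaceSubtype

instance : T2Space HH := by
  unfold HH; infer_instance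

theorem hh_closed : IsClosed {p : Ultrafilter ℕ | ∀ k : ℕ, mult k ∈ p} := by
  have : {p : Ultrafilter ℕ | ∀ k : ℕ, mult k ∈ p} = ⋂ k : ℕ, {p : Ultrafilter ℕ | mult k ∈ p} := by
    ext p; simp
  rw [this]
  exact isClosed_iInter fun k => ultrafilter_isClosed_basic _

instance : CompactSpace HH := isCompact_iff_compactSpace.mp hh_closed.isCompact

instance : Nonempty HH := by
  refine ⟨⟨(hyperfilter ℕ).map (fun n => 2 ^ n), fun k => ?_⟩⟩
  rw [map_mem]
  apply Filter.mem_of_superset (Nat.hyperfilter_le_atTop (Filter.mem_atTop k))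
  intro n hn
  exact ⟨by positivity, pow_dvd_pow 2 hn⟩

theorem hh_cont (r : HH) : Continuous (· * r) := by
  apply Continuous.subtype_mk
  exact (Ultrafilter.continuous_add_left r.1).comp continuous_subtype_val

/-- Doubling. -/
def dbl : MulAut HH where
  toFun p := ⟨p.1.map (fun n => 2 * n), fun k => by
    rw [map_mem]
    filter_upwards [p.2 k] with x hx
    exact ⟨by have := hx.1; omega, dvd_mul_of_dvd_right hx.2 2⟩⟩
  invFun p := ⟨p.1.map (fun n => n / 2), fun k => by
    rw [map_mem]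
    filter_upwards [p.2 (k + 1)] with x hx
    obtain ⟨h0, y, rfl⟩ := hx
    have hy : 0 < y := Nat.pos_of_ne_zero (by rintro rfl; simp at h0)
    have h1 : 2 ^ (k + 1) * y / 2 = 2 ^ k * y := by
      rw [pow_succ, mul_comm (2 ^ k) 2, mul_assoc, Nat.mul_div_cancel_left _ (by norm_num)]
    show 0 < 2 ^ (k + 1) * y / 2 ∧ 2 ^ k ∣ 2 ^ (k + 1) * y / 2
    rw [h1]
    exact ⟨by positivity, Dvd.intro _ rfl⟩⟩
  left_inv p := by
    apply Subtype.ext
    apply uext
    intro s
    show s ∈ (p.1.map (fun n => 2 * n)).map (fun n => n / 2) ↔ _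
    rw [map_mem, map_mem]
    have : {x | 2 * x ∈ {x : ℕ | x / 2 ∈ s}} = s := by
      ext x
      show (2 * x) / 2 ∈ s ↔ _
      rw [Nat.mul_div_cancel_left _ (by norm_num)]
    rw [this]
  right_inv p := by
    apply Subtype.ext
    apply uext
    intro s
    show s ∈ (p.1.map (fun n => n / 2)).map (fun n => 2 * n) ↔ _
    rw [map_mem, map_mem]
    have hE : mult 1 ∈ p.1 := p.2 1
    constructor
    · intro h
      filter_upwards [h, hE] with x hx h2
      obtain ⟨h0, h2⟩ := h2
      have : 2 * (x / 2) ∈ s := hx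
      rwa [Nat.mul_div_cancel' (by simpa using h2)] at this
    · intro h
      filter_upwards [h, hE] with x hx h2
      obtain ⟨h0, h2⟩ := h2
      show 2 * (x / 2) ∈ s
      rwa [Nat.mul_div_cancel' (by simpa using h2)]
  map_mul' p q := by
    apply Subtype.ext
    apply uext
    intro s
    show s ∈ (p.1 + q.1).map (fun n => 2 * n) ↔
      s ∈ p.1.map (fun n => 2 * n) + q.1.map (fun n => 2 * n)
    rw [map_mem, add_mem, add_mem, map_mem]
    have : {x | {y | x + y ∈ {x : ℕ | 2 * x ∈ s}} ∈ q.1} =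
        {x | 2 * x ∈ {x : ℕ | {y | x + y ∈ s} ∈ q.1.map (fun n => 2 * n)}} := by
      ext x
      show {y | 2 * (x + y) ∈ s} ∈ q.1 ↔ {y | 2 * x + 2 * y ∈ s} ∈ q.1
      simp only [mul_add]
    rw [this]

theorem dbl_val (p : HH) : (dbl p).1 = p.1.map (fun n => 2 * n) := rfl

/-- The family of ultrafilters on `ℕ`, with `G t` the double of `F (t - 1)`. -/
theorem exists_FG : ∃ F G : ℤ → Ultrafilter ℕ,
    (∀ t, {n | 0 < n} ∈ F t) ∧
    (∀ t, (F t).map (fun n => 2 * n) = G (t + 1)) ∧
    (∀ s t, F s + F t = F t) ∧ (∀ s t, G s + G t = G t) ∧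
    (∀ t, F t + G t = F t) ∧ (∀ t, G t + F t = G t) := by
  obtain ⟨f, h1, h2, h3⟩ := exists_band hh_cont dbl
  refine ⟨fun t => (f t).1, fun t => (dbl (f (t - 1))).1, fun t => ?_, fun t => ?_,
    fun s t => ?_, fun s t => ?_, fun t => ?_, fun t => ?_⟩
  · filter_upwards [(f t).2 0] with n hn
    exact hn.1
  · show _ = (dbl (f (t + 1 - 1))).1
    rw [dbl_val]; simp
  · rw [← mul_val, h1]
  · show (dbl (f (s - 1))).1 + (dbl (f (t - 1))).1 = _
    rw [← mul_val, ← map_mul, h1]
  · show (f t).1 + (dbl (f (t - 1))).1 = _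
    rw [← mul_val, h2]
  · show (dbl (f (t - 1))).1 + (f t).1 = _
    rw [← mul_val, h3]

end Pool.Agent.Q240.HLS
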