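import Mathlib
import Pool.Agent.Q240.HLS.Ultra

/-!
Selection of a sequence `x` such that all sums `∑ c w i * x i` of a family of words `w` lie in a
set `A`, provided that the ultrafilter sums of the words contain `A` and that only finitely many
words are distinguishable at each stage.
-/

set_option autoImplicit false

namespace Pool.Agent.Q240.HLS

open Filter

attribute [local instance] Ultrafilter.mul Ultrafilter.add
attribute [local instance] Ultrafilter.semigroup Ultrafilter.addSemigroup

/-- The condition after the choice of `x 0, ..., x (j - 1)`. -/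
def Good {W : Type} (c : W → ℕ → ℕ) (tail : W → ℕ → Ultrafilter ℕ) (A : Set ℕ) (j : ℕ)
    (x : ℕ → ℕ) : Prop :=
  ∀ w, {z | (∑ i ∈ Finset.range j, c w i * x i) + z ∈ A} ∈ tail w j

theorem select {W : Type} (q : ℕ → Ultrafilter ℕ) (c : W → ℕ → ℕ)
    (tail : W → ℕ → Ultrafilter ℕ) (A : Set ℕ) (B : ℕ → Set ℕ) (hB : ∀ j, B j ∈ q j)
    (hstep : ∀ w j, tail w j = (q j).map (fun x => c w j * x) + tail w (j + 1))
    (hfin : ∀ j, (Set.range fun w => ((fun i : Fin (j + 1) => c w i), tail w (j + 1))).Finite)
    (h0 : ∀ w, A ∈ tail w 0) :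
    ∃ x : ℕ → ℕ, (∀ j, x j ∈ B j) ∧ ∀ j, Good c tail A j x := by
  classical
  have key : ∀ (j : ℕ) (x : ℕ → ℕ), Good c tail A j x →
      ∃ a ∈ B j, Good c tail A (j + 1) (Function.update x j a) := by
    intro j x hx
    -- the set of good choices for a profile
    let D : ((Fin (j + 1) → ℕ) × Ultrafilter ℕ) → Set ℕ := fun π =>
      {a | {z | (∑ i : Fin (j + 1), π.1 i * Function.update x j a i) + z ∈ A} ∈ π.2}
    have hD : ∀ w, D ((fun i : Fin (j + 1) => c w i), tail w (j + 1)) ∈ q j := by
      intro w
      have h := hx w
      rw [hstep w j, add_mem, map_mem] at h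
      filter_upwards [h] with a ha
      show {z | (∑ i : Fin (j + 1), c w i * Function.update x j a i) + z ∈ A} ∈ tail w (j + 1)
      have ha' : {y | (∑ i ∈ Finset.range j, c w i * x i) + (c w j * a + y) ∈ A}
          ∈ tail w (j + 1) := ha
      have : (∑ i : Fin (j + 1), c w i * Function.update x j a i) =
          (∑ i ∈ Finset.range j, c w i * x i) + c w j * a := by
        rw [← Fin.sum_univ_eq_sum_range (fun i => c w i * x i) j, Fin.sum_univ_castSucc]
        congr 1
        · apply Finset.sum_congr rfl
          intro i _
          have : ((Fin.castSucc i : Fin (j + 1)) : ℕ) ≠ j := by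
            have := i.2; simp; omega
          rw [Function.update_of_ne this]
          simp
        · simp
      rw [this]
      simpa [add_assoc] using ha'
    have hI : (⋂₀ (D '' (Set.range fun w => ((fun i : Fin (j + 1) => c w i), tail w (j + 1)))))
        ∈ q j := by
      have : ⋂₀ (D '' (Set.range fun w => ((fun i : Fin (j + 1) => c w i), tail w (j + 1))))
          ∈ (q j : Filter ℕ) := by
        rw [Filter.sInter_mem ((hfin j).image D)]
        rintro _ ⟨_, ⟨w, rfl⟩, rfl⟩
        exact hD w
      exact this
    have hIB : (⋂₀ (D '' (Set.range fun w => ((fun i : Fin (j + 1) => c w i),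
        tail w (j + 1))))) ∩ B j ∈ (q j : Filter ℕ) := Filter.inter_mem hI (hB j)
    obtain ⟨a, ha, haB⟩ := (q j).nonempty_of_mem hIB
    refine ⟨a, haB, fun w => ?_⟩
    have h1 : a ∈ D ((fun i : Fin (j + 1) => c w i), tail w (j + 1)) :=
      ha _ ⟨_, ⟨w, rfl⟩, rfl⟩
    have h2 : {z | (∑ i : Fin (j + 1), c w i * Function.update x j a i) + z ∈ A}
        ∈ tail w (j + 1) := h1
    rw [Fin.sum_univ_eq_sum_range (fun i => c w i * Function.update x j a i) (j + 1)] at h2
    exact h2
  have good0 : ∀ x, Good c tail A 0 x := by
    intro x w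
    simpa using h0 w
  choose! step hstepB hstepG using key
  -- the sequence of partial choices
  let st : ∀ j : ℕ, ℕ → ℕ := fun j => Nat.rec (fun _ => 0)
    (fun j x => Function.update x j (step j x)) j
  have st_succ : ∀ j, st (j + 1) = Function.update (st j) j (step j (st j)) := fun j => rfl
  have hG : ∀ j, Good c tail A j (st j) := by
    intro j
    induction j with
    | zero => exact good0 _
    | succ j ih => rw [st_succ]; exact hstepG j _ ih
  let X : ℕ → ℕ := fun j => st (j + 1) j
  have hstab : ∀ k i, i < k → st k i = X i := by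
    intro k
    induction k with
    | zero => intro i hi; omega
    | succ k ih =>
      intro i hi
      rcases Nat.lt_succ_iff_lt_or_eq.mp hi with h | h
      · rw [st_succ, Function.update_of_ne (by omega)]
        exact ih i h
      · subst h; rfl
  refine ⟨X, fun j => ?_, fun j w => ?_⟩
  · show st (j + 1) j ∈ B j
    rw [st_succ, Function.update_self]
    exact hstepB j _ (hG j)
  · have h := hG j w
    have : (∑ i ∈ Finset.range j, c w i * X i) = ∑ i ∈ Finset.range j, c w i * st j i := by
      apply Finset.sum_congr rfl
      intro i hi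
      rw [hstab j i (Finset.mem_range.mp hi)]
    rw [this]
    exact h

end Pool.Agent.Q240.HLS
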