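import Mathlib
import Pool.Agent.Q240.HLS.Select

/-!
The positions `j : ℕ` are divided into zones: zone `n` consists of the positions `n * n + i` with
`i ≤ 2 * n`. The letter at position `n * n + i` belongs to the term `y n` if `i` is even and to
`y (n + 1)` if `i` is odd. It is chosen from the ultrafilter `F (cls j)`.
-/

set_option autoImplicit false

namespace Pool.Agent.Q240.HLS

open Filter

attribute [local instance] Ultrafilter.mul Ultrafilter.add
attribute [local instance] Ultrafilter.semigroup Ultrafilter.addSemigroup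

/-- The owner of the position `j`. -/
def own (j : ℕ) : ℕ := Nat.sqrt j + (j - Nat.sqrt j * Nat.sqrt j) % 2

/-- The class of the position `j`. -/
def cls (j : ℕ) : ℤ :=
  if (j - Nat.sqrt j * Nat.sqrt j) % 2 = 0 then
    -((min (j - Nat.sqrt j * Nat.sqrt j + 1)
      (2 * Nat.sqrt j - (j - Nat.sqrt j * Nat.sqrt j)) : ℕ) : ℤ)
  else ((min (j - Nat.sqrt j * Nat.sqrt j + 1)
      (2 * Nat.sqrt j - (j - Nat.sqrt j * Nat.sqrt j)) : ℕ) : ℤ)

theorem own_pos (n i : ℕ) (h : i ≤ 2 * n) : own (n * n + i) = n + i % 2 := by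
  unfold own
  rw [Nat.sqrt_add_eq n (by omega)]
  simp

theorem cls_even (n i : ℕ) (h : i ≤ 2 * n) (he : i % 2 = 0) :
    cls (n * n + i) = -((min (i + 1) (2 * n - i) : ℕ) : ℤ) := by
  unfold cls
  rw [Nat.sqrt_add_eq n (by omega)]
  simp [he]

theorem cls_odd (n i : ℕ) (h : i ≤ 2 * n) (he : i % 2 = 1) :
    cls (n * n + i) = ((min (i + 1) (2 * n - i) : ℕ) : ℤ) := by
  unfold cls
  rw [Nat.sqrt_add_eq n (by omega)]
  simp [he]

theorem exists_pos (j : ℕ) : ∃ n i, i ≤ 2 * n ∧ j = n * n + i := by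
  refine ⟨Nat.sqrt j, j - Nat.sqrt j * Nat.sqrt j, ?_, ?_⟩
  · have := Nat.sqrt_le_add j
    omega
  · have := Nat.sqrt_le j
    omega

theorem own_le (j : ℕ) : own j ≤ j := by
  obtain ⟨n, i, hi, rfl⟩ := exists_pos j
  rw [own_pos n i hi]
  have : n ≤ n * n := Nat.le_mul_self n
  omega

theorem own_le_sq (n j : ℕ) (h : j < n * n) : own j ≤ n := by
  obtain ⟨m, i, hi, rfl⟩ := exists_pos j
  rw [own_pos m i hi]
  have : m < n := by
    by_contra hcon
    have : n * n ≤ m * m := Nat.mul_le_mul (by omega) (by omega)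
    omega
  omega

theorem map_zero' (p : Ultrafilter ℕ) : p.map (fun x => 0 * x) = pure 0 := by
  apply uext
  intro s
  rw [map_mem]
  by_cases h : (0 : ℕ) ∈ s
  · have : {x : ℕ | 0 * x ∈ s} = Set.univ := by
      ext x; simp [h]
    rw [this]
    constructor
    · intro _; exact h
    · intro _; exact Filter.univ_mem
  · have : {x : ℕ | 0 * x ∈ s} = ∅ := by
      ext x; simp [h]
    rw [this]
    constructor
    · intro h2; exact absurd h2 (Ultrafilter.empty_notMem)
    · intro h2; exact absurd h2 h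

theorem map_one' (p : Ultrafilter ℕ) : p.map (fun x => 1 * x) = p := by
  apply uext
  intro s
  rw [map_mem]
  simp

theorem zero_add' (p : Ultrafilter ℕ) : (pure 0 : Ultrafilter ℕ) + p = p := by
  apply uext
  intro s
  rw [add_mem]
  show (0 : ℕ) ∈ {x | {y | x + y ∈ s} ∈ p} ↔ _
  simp

theorem add_zero' (p : Ultrafilter ℕ) : p + (pure 0 : Ultrafilter ℕ) = p := by
  apply uext
  intro s
  rw [add_mem]
  have : {x | {y | x + y ∈ s} ∈ (pure 0 : Ultrafilter ℕ)} = s := by
    ext x
    show (0 : ℕ) ∈ {y | x + y ∈ s} ↔ _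
    simp
  rw [this]

/-- The sum of the ultrafilters `T j, ..., T (j + len - 1)`. -/
def tl (T : ℕ → Ultrafilter ℕ) : ℕ → ℕ → Ultrafilter ℕ
  | 0, _ => pure 0
  | (len + 1), j => T j + tl T len (j + 1)

/-- Coefficients of the word of `y n + 2 * y (n + 1) + y (n + 2)`. -/
def cT (n j : ℕ) : ℕ :=
  if own j = n then 1 else if own j = n + 1 then 2 else if own j = n + 2 then 1 else 0

/-- Coefficients of the word of a finite sum. -/
def cF (S : Finset ℕ) (j : ℕ) : ℕ := if own j ∈ S then 1 else 0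

section

variable (F G : ℤ → Ultrafilter ℕ)
  (hFG : ∀ t, (F t).map (fun n => 2 * n) = G (t + 1))
  (hFF : ∀ s t, F s + F t = F t) (hGG : ∀ s t, G s + G t = G t)
  (hFG' : ∀ t, F t + G t = F t) (hGF : ∀ t, G t + F t = G t)

/-- The factor of the word `T n` at the position `j`. -/
noncomputable def fac (F : ℤ → Ultrafilter ℕ) (n j : ℕ) : Ultrafilter ℕ :=
  (F (cls j)).map (fun x => cT n j * x)

/-- The tails of the word `T n`. -/
noncomputable def tT (F : ℤ → Ultrafilter ℕ) (n j : ℕ) : Ultrafilter ℕ :=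
  tl (fac F n) ((n + 3) * (n + 3) - j) j

theorem cT_big (n j : ℕ) (h : (n + 3) * (n + 3) ≤ j) : cT n j = 0 := by
  obtain ⟨m, i, hi, rfl⟩ := exists_pos j
  have hm : n + 3 ≤ m := by
    by_contra hcon
    have : (m + 1) * (m + 1) ≤ (n + 3) * (n + 3) := Nat.mul_le_mul (by omega) (by omega)
    have e : (m + 1) * (m + 1) = m * m + 2 * m + 1 := by ring
    omega
  unfold cT
  rw [own_pos m i hi]
  rw [if_neg (by omega), if_neg (by omega), if_neg (by omega)]

theorem tT_step (n j : ℕ) : tT F n j = fac F n j + tT F n (j + 1) := by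
  unfold tT
  by_cases h : j < (n + 3) * (n + 3)
  · obtain ⟨l, hl⟩ : ∃ l, (n + 3) * (n + 3) - j = l + 1 := ⟨(n + 3) * (n + 3) - j - 1, by omega⟩
    have h2 : (n + 3) * (n + 3) - (j + 1) = l := by omega
    rw [hl, h2]
    rfl
  · have h1 : (n + 3) * (n + 3) - j = 0 := by omega
    have h2 : (n + 3) * (n + 3) - (j + 1) = 0 := by omega
    rw [h1, h2]
    show pure 0 = fac F n j + pure 0
    unfold fac
    rw [cT_big n j (by omega), map_zero', add_zero']

theorem tT_end (n j : ℕ) (h : (n + 3) * (n + 3) ≤ j) : tT F n j = pure 0 := by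
  unfold tT
  have h1 : (n + 3) * (n + 3) - j = 0 := by omega
  rw [h1]
  rfl

/-- Factors in the zone `n`. -/
theorem fac_B_even (n k : ℕ) (h : k ≤ 2 * n) (he : k % 2 = 0) :
    fac F n (n * n + k) = F (-((min (k + 1) (2 * n - k) : ℕ) : ℤ)) := by
  unfold fac cT
  rw [own_pos n k h, cls_even n k h he, if_pos (by omega), map_one']

include hFG in
theorem fac_B_odd (n k : ℕ) (h : k ≤ 2 * n) (he : k % 2 = 1) :
    fac F n (n * n + k) = G (((min (k + 1) (2 * n - k) : ℕ) : ℤ) + 1) := by
  unfold fac cT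
  rw [own_pos n k h, cls_odd n k h he, if_neg (by omega), if_pos (by omega), hFG]

include hFG in
/-- Factors in the zone `n + 1`. -/
theorem fac_A_even (n i : ℕ) (h : i ≤ 2 * (n + 1)) (he : i % 2 = 0) :
    fac F n ((n + 1) * (n + 1) + i) = G (-((min (i + 1) (2 * (n + 1) - i) : ℕ) : ℤ) + 1) := by
  unfold fac cT
  rw [own_pos (n + 1) i h, cls_even (n + 1) i h he, if_neg (by omega), if_pos (by omega), hFG]

theorem fac_A_odd (n i : ℕ) (h : i ≤ 2 * (n + 1)) (he : i % 2 = 1) :
    fac F n ((n + 1) * (n + 1) + i) = F ((min (i + 1) (2 * (n + 1) - i) : ℕ) : ℤ) := by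
  unfold fac cT
  rw [own_pos (n + 1) i h, cls_odd (n + 1) i h he, if_neg (by omega), if_neg (by omega),
    if_pos (by omega), map_one']

/-- Factors in the zone `n + 2`. -/
theorem fac_C_even (n i : ℕ) (h : i ≤ 2 * (n + 2)) (he : i % 2 = 0) :
    fac F n ((n + 2) * (n + 2) + i) = F (-((min (i + 1) (2 * (n + 2) - i) : ℕ) : ℤ)) := by
  unfold fac cT
  rw [own_pos (n + 2) i h, cls_even (n + 2) i h he, if_neg (by omega), if_neg (by omega),
    if_pos (by omega), map_one']

theorem fac_C_odd (n i : ℕ) (h : i ≤ 2 * (n + 2)) (he : i % 2 = 1) :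
    fac F n ((n + 2) * (n + 2) + i) = pure 0 := by
  unfold fac cT
  rw [own_pos (n + 2) i h, if_neg (by omega), if_neg (by omega),
    if_neg (by omega), map_zero']

include hFF in
/-- Tails in the zone `n + 2`. -/
theorem tT_C (n m : ℕ) (h : m ≤ 2 * (n + 2)) :
    tT F n ((n + 2) * (n + 2) + (2 * (n + 2) - m)) = F 0 := by
  induction m with
  | zero =>
    rw [tT_step, tT_end F n _ (le_of_eq (by rw [Nat.sub_zero]; ring)), add_zero', Nat.sub_zero,
      fac_C_even F n _ (le_refl _) (by omega)]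
    congr 1
    simp
  | succ m ih =>
    have ih' := ih (by omega)
    rw [tT_step]
    have e : (n + 2) * (n + 2) + (2 * (n + 2) - (m + 1)) + 1 =
        (n + 2) * (n + 2) + (2 * (n + 2) - m) := by omega
    rw [e, ih']
    rcases Nat.mod_two_eq_zero_or_one (2 * (n + 2) - (m + 1)) with he | he
    · rw [fac_C_even F n _ (by omega) he, hFF]
    · rw [fac_C_odd F n _ (by omega) he, zero_add']

include hFG hFF hGG hFG' hGF in
/-- Cancellation of a letter of the zone `n` against the zone `n + 1`. -/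
theorem tT_cancel (n i : ℕ) (h : i ≤ 2 * n) :
    fac F n (n * n + (2 * n - i)) + tT F n ((n + 1) * (n + 1) + i) =
      tT F n ((n + 1) * (n + 1) + (i + 1)) := by
  have e1 : tT F n ((n + 1) * (n + 1) + i) = fac F n ((n + 1) * (n + 1) + i) +
      (fac F n ((n + 1) * (n + 1) + (i + 1)) + tT F n ((n + 1) * (n + 1) + (i + 1) + 1)) := by
    rw [tT_step F n ((n + 1) * (n + 1) + i), add_assoc ((n + 1) * (n + 1)) i 1,
      tT_step F n ((n + 1) * (n + 1) + (i + 1))]
  have e2 : tT F n ((n + 1) * (n + 1) + (i + 1)) =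
      fac F n ((n + 1) * (n + 1) + (i + 1)) + tT F n ((n + 1) * (n + 1) + (i + 1) + 1) :=
    tT_step F n _
  rw [e1, e2, ← add_assoc, ← add_assoc]
  congr 1
  rcases Nat.mod_two_eq_zero_or_one i with he | he
  · rw [fac_B_even F n _ (by omega) (by omega), fac_A_even F G hFG n i (by omega) he,
      fac_A_odd F n (i + 1) (by omega) (by omega)]
    have : (-((min (i + 1) (2 * (n + 1) - i) : ℕ) : ℤ) + 1) =
        -((min (2 * n - i + 1) (2 * n - (2 * n - i)) : ℕ) : ℤ) := by
      omega
    rw [this, hFG', hFF]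
  · rw [fac_B_odd F G hFG n _ (by omega) (by omega), fac_A_odd F n i (by omega) he,
      fac_A_even F G hFG n (i + 1) (by omega) (by omega)]
    have : (((min (2 * n - i + 1) (2 * n - (2 * n - i)) : ℕ) : ℤ) + 1) =
        ((min (i + 1) (2 * (n + 1) - i) : ℕ) : ℤ) := by
      omega
    rw [this, hGF, hGG]

include hFG hFF hGG hFG' hGF in
/-- Tails in the zone `n`. -/
theorem tT_B (n m : ℕ) (h : m ≤ 2 * n + 1) :
    tT F n (n * n + (2 * n + 1 - m)) = tT F n ((n + 1) * (n + 1) + m) := by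
  induction m with
  | zero =>
    congr 1
    rw [Nat.sub_zero, Nat.add_zero]
    ring
  | succ m ih =>
    have ih' := ih (by omega)
    rw [tT_step]
    have e : n * n + (2 * n + 1 - (m + 1)) + 1 = n * n + (2 * n + 1 - m) := by omega
    have e' : 2 * n + 1 - (m + 1) = 2 * n - m := by omega
    rw [e, ih', e']
    exact tT_cancel F G hFG hFF hGG hFG' hGF n m (by omega)

include hFG hFF hGG hFG' hGF in
theorem tT_sq (n : ℕ) : tT F n (n * n) = F 0 := by
  have h := tT_B F G hFG hFF hGG hFG' hGF n (2 * n + 1) (le_refl _)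
  rw [Nat.sub_self, Nat.add_zero] at h
  rw [h, tT_step, tT_step]
  have e1 : (n + 1) * (n + 1) + (2 * n + 1) + 1 = (n + 1) * (n + 1) + (2 * n + 2) := by ring
  have e2 : (n + 1) * (n + 1) + (2 * n + 2) + 1 =
      (n + 2) * (n + 2) + (2 * (n + 2) - 2 * (n + 2)) := by
    rw [Nat.sub_self]; ring
  rw [e1, e2, tT_C F hFF n _ (le_refl _), fac_A_odd F n _ (by omega) (by omega),
    fac_A_even F G hFG n _ (by omega) (by omega)]
  have e3 : (((min (2 * n + 1 + 1) (2 * (n + 1) - (2 * n + 1)) : ℕ) : ℤ)) = 1 := by omega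
  have e4 : (-((min (2 * n + 2 + 1) (2 * (n + 1) - (2 * n + 2)) : ℕ) : ℤ) + 1) = 1 := by omega
  rw [e3, e4, ← add_assoc, hFG', hFF]

include hFG hFF hGG hFG' hGF in
theorem tT_low (n m : ℕ) (h : m ≤ n * n) : tT F n (n * n - m) = F 0 := by
  induction m with
  | zero => exact tT_sq F G hFG hFF hGG hFG' hGF n
  | succ m ih =>
    have ih' := ih (by omega)
    rw [tT_step]
    have e : n * n - (m + 1) + 1 = n * n - m := by omega
    rw [e, ih']
    have ho : own (n * n - (m + 1)) ≤ n := own_le_sq n _ (by omega)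
    unfold fac cT
    by_cases h1 : own (n * n - (m + 1)) = n
    · rw [if_pos h1, map_one', hFF]
    · rw [if_neg h1, if_neg (by omega), if_neg (by omega), map_zero', zero_add']

include hFG hFF hGG hFG' hGF in
theorem tT_zero (n j : ℕ) (h : j ≤ n * n) : tT F n j = F 0 := by
  have := tT_low F G hFG hFF hGG hFG' hGF n (n * n - j) (by omega)
  rwa [show n * n - (n * n - j) = j by omega] at this

end

end Pool.Agent.Q240.HLS
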